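import Pool.Agent.H992.PM.Fin

/-!
# Upper bounds up to a constant imply Gaussian moments (MP_a54f13_nt)

The setting is that of the library results on MP_4fa179_mp and of
`Pool.Agent.Results.MP_4fa179_mp.LocalRigidity`: `HP` is the hyperbolic plane, `Ω ⊆ HP` an open set
of finite area (for instance a fundamental domain of the modular group), and `u n` are smooth real
eigenfunctions on `HP`, quantum ergodic over `Ω` (a theorem for Hecke-Maass cusp forms: Lindenstrauss,
Soundararajan). `TF Ω ψ` are the smooth functions `ψ` with compact support in `Ω`. For a polynomial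
`Q` in `k` variables and points `w_1, …, w_k` of the plane `pMean Ω ψ λ u w Q` is
`∫_Ω ψ(z) Q (u (z + y λ^{-1/2} R w_1), …, u (z + y λ^{-1/2} R w_k)) dμ(z)`, averaged over all rotations
and reflections `R`: the multi-point moments of `u` at the scale of the wavelength. For `w = 0` and
`Q = x^q` it is `∫ ψ u^q dμ`, the subject of the problem. `γ` is the law of the isotropic random wave
on the space `MW` of all smooth real `f` on the plane with `Δf + f = 0`.

The theorem: THE GAUSSIAN MOMENTS ARE FORCED BY UPPER BOUNDS UP TO A CONSTANT. If the multi-point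
moments at points of one arbitrarily small disc `U`, with one weight `ψ`, satisfy
`limsup |∫ ψ Q dμ|² ≤ C E Q²` for all polynomials `Q` with one constant `C` (`E Q²` is the mean for
the random wave), then `∫ χ u^q dμ → C_q ∫ χ dμ` for all `q` and all test functions `χ` supported
in `{ψ > 0}`, and all multi-point moments converge to those of the random wave, at all points of the
plane. So the multi-point form of the conjecture is equivalent to upper bounds up to a constant.

Proof idea. The moments of order `2m` of the values at points of `U` are at most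
`C^{1/2} ((4m-1)!!)^{1/2}` times the power of the variance; so Taylor's formula for the exponential
gives the same bound for trigonometric sums instead of polynomials. By Riesz' theorem the weighted
limit laws have a density in `L²(γ)` on values in `U`, by the second moment asymptotics on all values;
translation invariance and mixing of the random wave show that the density is constant (as in
`LocalRigidity`); other weights by ergodicity; then the moments converge by uniform integrability.
-/

set_option autoImplicit false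
open MeasureTheory Filter Topology Complex ProbabilityTheory
open scoped ContDiff ENNReal

namespace Pool.Agent.Results.MP_a54f13_nt.PolynomialBounds

open Pool.Agent.W745.RW (TF lap)
open Pool.Agent.N661.BR (MW IsRandomWave)
open Pool.Agent.N661.BH (HP IsQuantumErgodic)
open Pool.Agent.H992.PM (pMean)

/-- **Upper bounds up to a constant imply Gaussian moments.** Let `u n` be real eigenfunctions on the
hyperbolic plane with eigenvalues `λ_n → ∞`, quantum ergodic over the open set `Ω` of finite area,
`γ` the law of the random wave, `U` a nonempty open subset of the plane. (1) Let `ψ ≥ 0` be a test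
function such that for some `C`, for all polynomials `Q` and all points `w_j` of `U`,
`limsup |∫ ψ Q(u at w_1, …, w_k) dμ|² ≤ C E Q²`. Then for all test functions `χ` supported in
`{ψ > 0}` the means `∫ χ Q dμ` converge to `E Q ∫ χ dμ` for all polynomials `Q` and all points, and
`∫ χ u_n^q dμ → C_q ∫ χ dμ` for all `q`. (2) The following are equivalent: for every test function
`ψ ≥ 0` there is such a constant `C`; for all test functions `χ`, all polynomials and all points the
means `∫ χ Q dμ` converge to `E Q ∫ χ dμ`. -/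
theorem result (Ω : Set ℂ) (hΩ : IsOpen Ω) (hHP : Ω ⊆ HP) (hne : Ω.Nonempty)
    (hA : IntegrableOn (fun z : ℂ => 1 / z.im ^ 2) Ω)
    (lam : ℕ → ℝ) (hpos : ∀ n, 0 < lam n) (hlam : Tendsto lam atTop atTop)
    (u : ℕ → ℂ → ℝ) (hu : ∀ n, ContDiffOn ℝ ∞ (u n) HP)
    (heq : ∀ n, ∀ z ∈ HP, z.im ^ 2 * lap (u n) z + lam n * u n z = 0)
    (hqe : IsQuantumErgodic Ω lam u)
    (γ : Measure MW) (hγp : IsProbabilityMeasure γ) (hγ : IsRandomWave γ)
    (U : Set ℂ) (hU : IsOpen U) (hUne : U.Nonempty) :
    (∀ ψ, TF Ω ψ → (∀ z, 0 ≤ ψ z) →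
      (∃ C : ℝ, ∀ (k : ℕ) (w : Fin k → ℂ) (Q : MvPolynomial (Fin k) ℝ), (∀ j, w j ∈ U) →
        ∀ ε : ℝ, 0 < ε → ∀ᶠ n in atTop, pMean Ω ψ (lam n) (u n) w Q ^ 2 ≤
          C * (∫ f : MW, MvPolynomial.eval (fun j => f (w j)) Q ^ 2 ∂γ) + ε) →
      ∀ χ, TF Ω χ → tsupport χ ⊆ {z | 0 < ψ z} →
        (∀ (k : ℕ) (w : Fin k → ℂ) (Q : MvPolynomial (Fin k) ℝ),
          Tendsto (fun n => pMean Ω χ (lam n) (u n) w Q) atTop
            (𝓝 ((∫ f : MW, MvPolynomial.eval (fun j => f (w j)) Q ∂γ) *
              ∫ z in Ω, χ z / z.im ^ 2))) ∧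
        ∀ q : ℕ, Tendsto (fun n => ∫ z in Ω, χ z / z.im ^ 2 * u n z ^ q) atTop
          (𝓝 ((∫ x, x ^ q ∂(gaussianReal 0 1)) * ∫ z in Ω, χ z / z.im ^ 2))) ∧
    ((∀ ψ, TF Ω ψ → (∀ z, 0 ≤ ψ z) →
      ∃ C : ℝ, ∀ (k : ℕ) (w : Fin k → ℂ) (Q : MvPolynomial (Fin k) ℝ), (∀ j, w j ∈ U) →
        ∀ ε : ℝ, 0 < ε → ∀ᶠ n in atTop, pMean Ω ψ (lam n) (u n) w Q ^ 2 ≤
          C * (∫ f : MW, MvPolynomial.eval (fun j => f (w j)) Q ^ 2 ∂γ) + ε) ↔
      ∀ χ, TF Ω χ → ∀ (k : ℕ) (w : Fin k → ℂ) (Q : MvPolynomial (Fin k) ℝ),
        Tendsto (fun n => pMean Ω χ (lam n) (u n) w Q) atTop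
          (𝓝 ((∫ f : MW, MvPolynomial.eval (fun j => f (w j)) Q ∂γ) *
            ∫ z in Ω, χ z / z.im ^ 2))) :=
  Pool.Agent.H992.PM.fin Ω lam u ⟨hΩ, hHP, hne, hA, hpos, hlam, hu, heq, hqe⟩ γ hγp hγ U hU hUne

end Pool.Agent.Results.MP_a54f13_nt.PolynomialBounds
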